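import Pool.Agent.H66.IQ.TD

/-!
Row GWT of iq_modules: a game on strings of given weight.
-/

set_option autoImplicit false

namespace Pool.Agent.H27.IQ

open Finset Pool.Agent.H66.IQ
open Pool.Agent.H78.XQ (nt ws wm)
open Pool.Agent.H70.EH (mn)

/-- Lipschitz bound in an interval of integers. -/
private theorem gwt_lip (g : ℕ → ℝ) (c : ℝ) (a b : ℕ)
    (h : ∀ v, a ≤ v → v + 1 ≤ b → |g (v + 1) - g v| ≤ c) :
    ∀ n v, a ≤ v → v + n ≤ b → |g (v + n) - g v| ≤ n * c := by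
  intro n
  induction n with
  | zero =>
    intro v _ _
    simp
  | succ n ih =>
    intro v hv hb
    have h1 := ih v hv (by omega)
    have h2 := h (v + n) (by omega) (by omega)
    have e : g (v + (n + 1)) - g v = (g (v + n + 1) - g (v + n)) + (g (v + n) - g v) := by
      rw [← add_assoc]
      ring
    rw [e]
    refine (abs_add_le _ _).trans ?_
    push_cast
    linarith

private theorem gwt_wm (V : Type) [Fintype V] [DecidableEq V] (W : ℕ) (F : (V → Bool) → ℝ)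
    (h0 : ∀ y, 0 ≤ F y) (h1 : ∀ y, F y ≤ 1) :
    0 ≤ wm (fun _ => none) W F ∧ wm (fun _ => none) W F ≤ 1 := by
  unfold wm
  constructor
  · exact div_nonneg (Finset.sum_nonneg fun y _ => h0 y) (Nat.cast_nonneg _)
  · refine div_le_one_of_le₀ ?_ (Nat.cast_nonneg _)
    calc ∑ y ∈ ws (fun _ => none) W, F y ≤ ∑ y ∈ ws (fun _ : V => none) W, (1 : ℝ) :=
          Finset.sum_le_sum fun y _ => h1 y
      _ = (ws (fun _ : V => none) W).card := by simp

/-- One step in the middle range. -/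
private theorem gwt_step (N w : ℝ) (g : ℕ → ℝ) (v : ℕ) (_hN0 : 0 < N) (hw0 : 0 ≤ w)
    (h3 : g (v + 1) - g v ≤ w / (v + 1)) (h4 : g v - g (v + 1) ≤ w / (N - v))
    (hv : 3 / 8 * N ≤ v) (hv' : ((v + 1 : ℕ) : ℝ) ≤ 5 / 8 * N) :
    |g (v + 1) - g v| ≤ 8 * w / (3 * N) := by
  push_cast at hv'
  have hv0 : (0 : ℝ) ≤ v := Nat.cast_nonneg v
  have h1 : w / (v + 1) ≤ 8 * w / (3 * N) := by
    rw [div_le_div_iff₀ (by linarith) (by linarith)]
    have h5 := mul_le_mul_of_nonneg_left (show 3 * N ≤ 8 * (v + 1) by linarith) hw0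
    linarith
  have h2 : w / (N - v) ≤ 8 * w / (3 * N) := by
    rw [div_le_div_iff₀ (by linarith) (by linarith)]
    have h5 := mul_le_mul_of_nonneg_left (show 3 * N ≤ 8 * (N - v) by linarith) hw0
    linarith
  rw [abs_le]
  constructor <;> linarith

private theorem gwt_pt (N c : ℝ) (g : ℕ → ℝ) (W W' : ℕ) (hN0 : 0 < N) (hc0 : 0 ≤ c)
    (hg01 : ∀ W, 0 ≤ g W ∧ g W ≤ 1) (hW1 : 3 / 8 * N ≤ W) (hW2 : (W : ℝ) ≤ 5 / 8 * N)
    (hlip : ∀ v v' : ℕ, 3 / 8 * N ≤ v → v ≤ v' → (v' : ℝ) ≤ 5 / 8 * N →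
      |g v' - g v| ≤ ((v' : ℝ) - v) * c) :
    |g W - g W'| ≤ c * (|(W : ℝ) - N / 2| + |(W' : ℝ) - N / 2|) +
      64 / N ^ 2 * ((W' : ℝ) - N / 2) ^ 2 := by
  have hA : 0 ≤ c * (|(W : ℝ) - N / 2| + |(W' : ℝ) - N / 2|) :=
    mul_nonneg hc0 (add_nonneg (abs_nonneg _) (abs_nonneg _))
  have hB : 0 ≤ 64 / N ^ 2 * ((W' : ℝ) - N / 2) ^ 2 :=
    mul_nonneg (div_nonneg (by norm_num) (sq_nonneg _)) (sq_nonneg _)
  by_cases hin : 3 / 8 * N ≤ W' ∧ (W' : ℝ) ≤ 5 / 8 * N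
  · have h1 : |g W - g W'| ≤ |(W : ℝ) - W'| * c := by
      rcases le_total W W' with h | h
      · have h2 := hlip W W' hW1 h hin.2
        have h3 : (W : ℝ) ≤ W' := by exact_mod_cast h
        rw [abs_sub_comm, abs_sub_comm (W : ℝ), abs_of_nonneg (by linarith : (0 : ℝ) ≤ W' - W)]
        exact h2
      · have h2 := hlip W' W hin.1 h hW2
        have h3 : (W' : ℝ) ≤ W := by exact_mod_cast h
        rw [abs_of_nonneg (by linarith : (0 : ℝ) ≤ (W : ℝ) - W')]
        exact h2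
    have h2 : |(W : ℝ) - W'| ≤ |(W : ℝ) - N / 2| + |(W' : ℝ) - N / 2| := by
      have e : (W : ℝ) - W' = ((W : ℝ) - N / 2) - ((W' : ℝ) - N / 2) := by ring
      rw [e]
      exact abs_sub _ _
    have h3 := mul_le_mul_of_nonneg_right h2 hc0
    linarith
  · have h1 : |g W - g W'| ≤ 1 := by
      have h3 := hg01 W
      have h4 := hg01 W'
      rw [abs_le]
      constructor <;> linarith [h3.1, h3.2, h4.1, h4.2]
    have h2 : N ^ 2 / 64 ≤ ((W' : ℝ) - N / 2) ^ 2 := by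
      rw [not_and_or] at hin
      have h0 : (0 : ℝ) ≤ N / 8 := by linarith
      rcases hin with h | h
      · push Not at h
        calc N ^ 2 / 64 = (N / 8) ^ 2 := by ring
          _ ≤ (N / 2 - W') ^ 2 := pow_le_pow_left₀ h0 (by linarith) 2
          _ = ((W' : ℝ) - N / 2) ^ 2 := by ring
      · push Not at h
        calc N ^ 2 / 64 = (N / 8) ^ 2 := by ring
          _ ≤ ((W' : ℝ) - N / 2) ^ 2 := pow_le_pow_left₀ h0 (by linarith) 2
    have h3 : 1 ≤ 64 / N ^ 2 * ((W' : ℝ) - N / 2) ^ 2 := by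
      calc (1 : ℝ) = 64 / N ^ 2 * (N ^ 2 / 64) := by
            have : N ^ 2 ≠ 0 := (pow_pos hN0 2).ne'
            field_simp
        _ ≤ _ := mul_le_mul_of_nonneg_left h2 (div_nonneg (by norm_num) (sq_nonneg _))
    linarith

/-- The first absolute moment. -/
private theorem gwt_abs (N : ℝ) (M : ℕ) (P : ℕ → ℝ) (hN0 : 0 < N) (hP0 : ∀ W', 0 ≤ P W')
    (hP1 : ∑ W' ∈ range M, P W' = 1)
    (hvar : ∑ W' ∈ range M, P W' * ((W' : ℝ) - N / 2) ^ 2 = N / 4) :
    ∑ W' ∈ range M, P W' * |(W' : ℝ) - N / 2| ≤ √N / 2 := by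
  have hs0 : 0 < √N := Real.sqrt_pos.mpr hN0
  have hss : √N * √N = N := Real.mul_self_sqrt hN0.le
  have hpt2 : ∀ W' : ℕ, |(W' : ℝ) - N / 2| ≤ √N / 4 + ((W' : ℝ) - N / 2) ^ 2 / √N := by
    intro W'
    have h1 : 0 ≤ (|(W' : ℝ) - N / 2| - √N / 2) ^ 2 := sq_nonneg _
    have h2 : |(W' : ℝ) - N / 2| ^ 2 = ((W' : ℝ) - N / 2) ^ 2 := sq_abs _
    have e : (|(W' : ℝ) - N / 2| - √N / 2) ^ 2 = |(W' : ℝ) - N / 2| ^ 2 -
        |(W' : ℝ) - N / 2| * √N + √N / 4 * √N := by ring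
    rw [e, h2] at h1
    have h4 : √N / 4 + ((W' : ℝ) - N / 2) ^ 2 / √N =
        ((√N / 4) * √N + ((W' : ℝ) - N / 2) ^ 2) / √N := by
      rw [add_div, mul_div_cancel_right₀ _ hs0.ne']
    rw [h4, le_div_iff₀ hs0]
    linarith
  calc ∑ W' ∈ range M, P W' * |(W' : ℝ) - N / 2|
      ≤ ∑ W' ∈ range M, (P W' * (√N / 4) + P W' * ((W' : ℝ) - N / 2) ^ 2 / √N) := by
        refine Finset.sum_le_sum fun W' _ => ?_
        refine (mul_le_mul_of_nonneg_left (hpt2 W') (hP0 W')).trans (le_of_eq ?_)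
        rw [mul_add, mul_div_assoc]
    _ = √N / 4 + N / 4 / √N := by
        rw [Finset.sum_add_distrib, ← Finset.sum_mul, hP1, one_mul, ← Finset.sum_div, hvar]
    _ = √N / 2 := by
        have e : N / 4 / √N = √N / 4 := by
          rw [div_div, div_eq_div_iff (mul_pos (by norm_num) hs0).ne' (by norm_num)]
          linarith
        rw [e]
        ring

/-- The numerical core for a large number of variables. -/
private theorem gwt_core (N w δ m : ℝ) (M W : ℕ) (g P : ℕ → ℝ) (hN0 : 0 < N) (hw0 : 0 ≤ w)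
    (hδ0 : 0 ≤ δ) (hP0 : ∀ W', 0 ≤ P W') (hP1 : ∑ W' ∈ range M, P W' = 1)
    (hvar : ∑ W' ∈ range M, P W' * ((W' : ℝ) - N / 2) ^ 2 = N / 4)
    (hm : g W - m = ∑ W' ∈ range M, P W' * (g W - g W'))
    (hW : |(W : ℝ) - N / 2| ≤ δ * N)
    (hpt : ∀ W' : ℕ, |g W - g W'| ≤ 8 * w / (3 * N) * (|(W : ℝ) - N / 2| + |(W' : ℝ) - N / 2|) +
      64 / N ^ 2 * ((W' : ℝ) - N / 2) ^ 2) :
    |g W - m| ≤ 4 * w * (δ + 1 / √N) + 16 / N := by
  have hs0 : 0 < √N := Real.sqrt_pos.mpr hN0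
  have hss : √N * √N = N := Real.mul_self_sqrt hN0.le
  have habs := gwt_abs N M P hN0 hP0 hP1 hvar
  have hc0 : 0 ≤ 8 * w / (3 * N) := div_nonneg (by linarith) (by linarith)
  have hfin : |g W - m| ≤ 8 * w / (3 * N) * (δ * N + √N / 2) + 64 / N ^ 2 * (N / 4) := by
    rw [hm]
    calc |∑ W' ∈ range M, P W' * (g W - g W')|
        ≤ ∑ W' ∈ range M, |P W' * (g W - g W')| := Finset.abs_sum_le_sum_abs _ _
      _ ≤ ∑ W' ∈ range M, (P W' * (8 * w / (3 * N) * |(W : ℝ) - N / 2|) +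
            8 * w / (3 * N) * (P W' * |(W' : ℝ) - N / 2|) +
            64 / N ^ 2 * (P W' * ((W' : ℝ) - N / 2) ^ 2)) := by
          refine Finset.sum_le_sum fun W' _ => ?_
          rw [abs_mul, abs_of_nonneg (hP0 W')]
          refine (mul_le_mul_of_nonneg_left (hpt W') (hP0 W')).trans (le_of_eq ?_)
          ring
      _ = 8 * w / (3 * N) * |(W : ℝ) - N / 2| +
            8 * w / (3 * N) * (∑ W' ∈ range M, P W' * |(W' : ℝ) - N / 2|) +
            64 / N ^ 2 * (N / 4) := by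
          rw [Finset.sum_add_distrib, Finset.sum_add_distrib, ← Finset.sum_mul, hP1, one_mul,
            ← Finset.mul_sum, ← Finset.mul_sum, hvar]
      _ ≤ 8 * w / (3 * N) * (δ * N) + 8 * w / (3 * N) * (√N / 2) + 64 / N ^ 2 * (N / 4) :=
          add_le_add (add_le_add (mul_le_mul_of_nonneg_left hW hc0)
            (mul_le_mul_of_nonneg_left habs hc0)) le_rfl
      _ = _ := by ring
  refine hfin.trans ?_
  have e1 : 8 * w / (3 * N) * (δ * N + √N / 2) = 8 / 3 * w * (δ + 1 / (2 * √N)) := by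
    have h5 : 1 / (2 * √N) = √N / 2 / N := by
      rw [div_div, div_eq_div_iff (mul_pos (by norm_num) hs0).ne' (by linarith)]
      linarith
    rw [h5]
    field_simp
  have e2 : 64 / N ^ 2 * (N / 4) = 16 / N := by
    field_simp
    norm_num
  rw [e1, e2]
  have h6 : 1 / (2 * √N) ≤ 1 / √N := one_div_le_one_div_of_le hs0 (by linarith)
  have h8 : 0 ≤ 1 / (2 * √N) := div_nonneg (by norm_num) (by linarith)
  have h7 : 8 / 3 * w * (δ + 1 / (2 * √N)) ≤ 4 * w * (δ + 1 / √N) :=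
    mul_le_mul (by linarith) (by linarith) (by linarith) (by linarith)
  linarith

/-- A small number of variables. -/
private theorem gwt_small (M W : ℕ) (m : ℝ) (g P : ℕ → ℝ) (hP0 : ∀ W', 0 ≤ P W')
    (hP1 : ∑ W' ∈ range M, P W' = 1) (hg01 : ∀ W, 0 ≤ g W ∧ g W ≤ 1)
    (hm : g W - m = ∑ W' ∈ range M, P W' * (g W - g W')) : |g W - m| ≤ 1 := by
  rw [hm]
  calc |∑ W' ∈ range M, P W' * (g W - g W')|
      ≤ ∑ W' ∈ range M, |P W' * (g W - g W')| := Finset.abs_sum_le_sum_abs _ _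
    _ ≤ ∑ W' ∈ range M, P W' * 1 := by
        refine Finset.sum_le_sum fun W' _ => ?_
        rw [abs_mul, abs_of_nonneg (hP0 W')]
        refine mul_le_mul_of_nonneg_left ?_ (hP0 W')
        have h3 := hg01 W
        have h4 := hg01 W'
        rw [abs_le]
        constructor <;> linarith [h3.1, h3.2, h4.1, h4.2]
    _ = 1 := by rw [← Finset.sum_mul, hP1, one_mul]

theorem pf_GWT (hADJ : T_ADJ) (hVRN : Pool.Agent.H66.IP.T_VRN) (hEVS : T_EVS) : T_GWT := by
  intro V _ _ _ W w δ t hδ0 hδ hw hW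
  obtain ⟨hmn, hvar⟩ := hVRN V
  have hN1 : 1 ≤ Fintype.card V := Fintype.card_pos
  have hNr : (1 : ℝ) ≤ Fintype.card V := by exact_mod_cast hN1
  have hN0 : (0 : ℝ) < Fintype.card V := by linarith
  have ev0 : ∀ y, 0 ≤ t.ev y := fun y =>
    (hEVS V 1 t y one_pos).1.trans (hEVS V 1 t y one_pos).2.1
  have ev1 : ∀ y, t.ev y ≤ 1 := fun y => (hEVS V 1 t y one_pos).2.2.1
  have hg01 : ∀ W, 0 ≤ wm (fun _ : V => none) W t.ev ∧ wm (fun _ : V => none) W t.ev ≤ 1 :=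
    fun W => gwt_wm V W t.ev ev0 ev1
  have hw0 : (0 : ℝ) ≤ w := Nat.cast_nonneg _
  have hP0 : ∀ W' : ℕ, 0 ≤ ((Fintype.card V).choose W' : ℝ) / 2 ^ Fintype.card V := fun W' =>
    div_nonneg (Nat.cast_nonneg _) (by positivity)
  have hP1 : ∑ W' ∈ range (Fintype.card V + 1),
      ((Fintype.card V).choose W' : ℝ) / 2 ^ Fintype.card V = 1 := by
    rw [← Finset.sum_div, ← Nat.cast_sum, Nat.sum_range_choose]
    push_cast
    exact div_self (by positivity)
  have hdiff : wm (fun _ : V => none) W t.ev - mn t.ev = ∑ W' ∈ range (Fintype.card V + 1),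
      ((Fintype.card V).choose W' : ℝ) / 2 ^ Fintype.card V *
        (wm (fun _ : V => none) W t.ev - wm (fun _ : V => none) W' t.ev) := by
    have h := hmn t.ev
    rw [h]
    simp_rw [mul_sub]
    rw [Finset.sum_sub_distrib, ← Finset.sum_mul, hP1, one_mul]
  by_cases hsmall : (Fintype.card V : ℝ) ≤ 16
  · have h1 : 1 ≤ 16 / (Fintype.card V : ℝ) := by
      rw [le_div_iff₀ hN0]
      linarith
    have h2 := gwt_small _ W _ (fun W => wm (fun _ : V => none) W t.ev) _ hP0 hP1 hg01 hdiff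
    have h3 : 0 ≤ 4 * (w : ℝ) * (δ + 1 / √(Fintype.card V : ℝ)) := by positivity
    exact h2.trans (by linarith)
  push Not at hsmall
  have hδN : δ * (Fintype.card V : ℝ) ≤ 1 / 8 * Fintype.card V :=
    mul_le_mul_of_nonneg_right hδ hN0.le
  have hW1 : 3 / 8 * (Fintype.card V : ℝ) ≤ W := by
    have := (abs_le.mp hW).1
    linarith
  have hW2 : (W : ℝ) ≤ 5 / 8 * Fintype.card V := by
    have := (abs_le.mp hW).2
    linarith
  have hstep : ∀ v : ℕ, 3 / 8 * (Fintype.card V : ℝ) ≤ v →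
      ((v + 1 : ℕ) : ℝ) ≤ 5 / 8 * Fintype.card V →
      |wm (fun _ : V => none) (v + 1) t.ev - wm (fun _ : V => none) v t.ev| ≤
        8 * w / (3 * Fintype.card V) := by
    intro v hv hv'
    have hv1 : v + 1 ≤ Fintype.card V := by
      have : ((v + 1 : ℕ) : ℝ) ≤ Fintype.card V := by linarith
      exact_mod_cast this
    have h := hADJ V v w t hw hv1
    exact gwt_step _ w (fun W => wm (fun _ : V => none) W t.ev) v hN0 hw0 h.1 h.2 hv hv'
  have hlip : ∀ v v' : ℕ, 3 / 8 * (Fintype.card V : ℝ) ≤ v → v ≤ v' →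
      (v' : ℝ) ≤ 5 / 8 * Fintype.card V →
      |wm (fun _ : V => none) v' t.ev - wm (fun _ : V => none) v t.ev| ≤
        ((v' : ℝ) - v) * (8 * w / (3 * Fintype.card V)) := by
    intro v v' hv hvv hv'
    have h := gwt_lip (fun W => wm (fun _ : V => none) W t.ev) _ v v' (fun u hu hu' => hstep u (by
      have : (v : ℝ) ≤ u := by exact_mod_cast hu
      linarith) (by
      have : ((u + 1 : ℕ) : ℝ) ≤ v' := by exact_mod_cast hu'
      linarith)) (v' - v) v le_rfl (by omega)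
    rw [Nat.add_sub_cancel' hvv, Nat.cast_sub hvv] at h
    exact h
  have hc0 : 0 ≤ 8 * (w : ℝ) / (3 * Fintype.card V) := div_nonneg (by linarith) (by linarith)
  exact gwt_core _ w δ _ _ W (fun W => wm (fun _ : V => none) W t.ev) _ hN0 hw0 hδ0 hP0 hP1 hvar
    hdiff hW fun W' => gwt_pt _ _ _ W W' hN0 hc0 hg01 hW1 hW2 hlip

end Pool.Agent.H27.IQ
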