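import Pool.Agent.H66.IQ.TE

/-!
Row PTR of iq_modules: a protocol is a game tree whose leaves are formulas.
-/

set_option autoImplicit false

namespace Pool.Agent.H27.IQ

open Finset Pool.Agent.H6.NB Pool.Agent.H70.OQ Pool.Agent.H70.EH Pool.Agent.H70.EI Pool.Agent.H78.XQ
open Pool.Agent.H66.IQ

/-- the leaf of a Boolean function, all variables are read -/
private def ptr_lf {X : Type} [Fintype X] (f : (X → Bool) → Bool) : Lf X where
  f := f
  Q := fun _ => univ
  path := by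
    intro y y' h
    have e : y' = y := funext fun v => h v (mem_univ v)
    subst e
    exact ⟨rfl, rfl⟩

theorem pf_PTR (hLCX : T_LCX) : T_PTR := by
  intro X _ k m S G O hS hm hO hG
  obtain ⟨hmv, hts⟩ := hG
  suffices h : ∃ t : Tr X, t.dp ≤ G.moves ∧ t.Cb S (k + 5) ∧ ∀ y, t.ev y = G.val (O y) by
    obtain ⟨t, h1, h2, h3⟩ := h
    exact ⟨t, h1.trans hmv, h2, h3⟩
  clear hmv
  induction G with
  | test T =>
    obtain ⟨h1, h2⟩ := hts
    refine ⟨Tr.lf (ptr_lf fun y => T.eval (O y)), le_rfl, hLCX X k m S T O hS hm hO h1 h2, ?_⟩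
    intro y
    change bi (T.eval (O y)) = if T.eval (O y) = true then 1 else 0
    cases T.eval (O y) <;> simp [bi]
  | coin l r ihl ihr =>
    obtain ⟨tl, l1, l2, l3⟩ := ihl hts.1
    obtain ⟨tr, r1, r2, r3⟩ := ihr hts.2
    refine ⟨Tr.av tl tr, ?_, ⟨l2, r2⟩, ?_⟩
    · exact Nat.succ_le_succ (max_le_max l1 r1)
    · intro y
      change (tl.ev y + tr.ev y) / 2 = (l.val (O y) + r.val (O y)) / 2
      rw [l3, r3]
  | say l r ihl ihr =>
    obtain ⟨tl, l1, l2, l3⟩ := ihl hts.1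
    obtain ⟨tr, r1, r2, r3⟩ := ihr hts.2
    refine ⟨Tr.ch tl tr, ?_, ⟨l2, r2⟩, ?_⟩
    · exact Nat.succ_le_succ (max_le_max l1 r1)
    · intro y
      change max (tl.ev y) (tr.ev y) = max (l.val (O y)) (r.val (O y))
      rw [l3, r3]

end Pool.Agent.H27.IQ
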